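import Pool.Agent.Q164.NI.Polar

/-!
# MP_dad682_an: norming by an algebra versus by its injective envelope

We answer Q1 in the negative: there are C*-algebras `A ⊆ B ⊆ B(H)` and a completely isometric copy
`J` of the injective envelope `I(A)` in `B(H)` that norms `B`, while `A` does not norm `B`.

Proof idea: `H = ℓ²(ℕ) ⊕ ℂ²`, `B = B(H)`, `A` is the algebra of bounded sequences that have the
same limit along two free ultrafilters, acting by scalars on `ℂ²`; `I(A) = ℓ^∞` and the copy of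
`ℓ^∞` acts on `ℂ²` by the two (different) limits.
-/

open scoped InnerProductSpace ENNReal BigOperators
open Filter Topology Pool.Agent.Q164.NI

noncomputable section

namespace Pool.Agent.Results.MP_dad682_an.NormingFails

set_option maxHeartbeats 4000000

universe v

/-- `B(H)` -/
abbrev Op (H : Type*) [NormedAddCommGroup H] [InnerProductSpace ℂ H] := H →L[ℂ] H

section Defs

variable {H K : Type*} [NormedAddCommGroup H] [InnerProductSpace ℂ H] [CompleteSpace H]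
  [NormedAddCommGroup K] [InnerProductSpace ℂ K] [CompleteSpace K]

/-- The norm of an `m × n` matrix of operators on `H` as an operator `H^n → H^m` between Hilbert
sums: the least constant `c ≥ 0` with `‖X ξ‖ ≤ c ‖ξ‖` for all `ξ` in `H^n`. -/
def mnorm {m n : ℕ} (X : Matrix (Fin m) (Fin n) (Op H)) : ℝ :=
  sInf {c : ℝ | 0 ≤ c ∧ ∀ ξ : Fin n → H,
    Real.sqrt (∑ i, ‖∑ j, X i j (ξ j)‖ ^ 2) ≤ c * Real.sqrt (∑ j, ‖ξ j‖ ^ 2)}

/-- `A ⊆ B(H)` is a (unital) C*-subalgebra of `B(H)`. -/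
def IsCStarSubalgebra (A : Set (Op H)) : Prop :=
  IsClosed A ∧ ∃ S : StarSubalgebra ℂ (Op H), (S : Set (Op H)) = A

/-- `S ⊆ B(H)` is a linear subspace. -/
def IsSubspace (S : Set (Op H)) : Prop :=
  ∃ V : Submodule ℂ (Op H), (V : Set (Op H)) = S

/-- `f` is linear on the subspace `S` of `B(K)`. -/
def LinearOn (S : Set (Op K)) (f : Op K → Op H) : Prop :=
  ∀ x ∈ S, ∀ y ∈ S, ∀ c : ℂ, f (c • x + y) = c • f x + f y

/-- `f` is completely contractive on the subspace `S` of `B(K)`. -/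
def CompletelyContractiveOn (S : Set (Op K)) (f : Op K → Op H) : Prop :=
  ∀ (n : ℕ) (X : Matrix (Fin n) (Fin n) (Op K)), (∀ i j, X i j ∈ S) → mnorm (X.map f) ≤ mnorm X

/-- `f` is completely isometric on the subspace `S` of `B(K)`. -/
def CompletelyIsometricOn (S : Set (Op K)) (f : Op K → Op H) : Prop :=
  ∀ (n : ℕ) (X : Matrix (Fin n) (Fin n) (Op K)), (∀ i j, X i j ∈ S) → mnorm (X.map f) = mnorm X

/-- The C*-algebra `E ⊆ B(K)` is injective: every completely contractive linear map from a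
subspace `S` of some `B(L)`, `L` a Hilbert space, into `E` extends to a completely contractive
linear map from `B(L)` into `E`. -/
def IsInjectiveAlgebra (E : Set (Op K)) : Prop :=
  ∀ (L : Type v) [NormedAddCommGroup L] [InnerProductSpace ℂ L] [CompleteSpace L]
    (S : Set (Op L)), IsSubspace S → ∀ f : Op L → Op K, LinearOn S f → Set.MapsTo f S E →
    CompletelyContractiveOn S f →
    ∃ g : Op L → Op K, LinearOn Set.univ g ∧ Set.MapsTo g Set.univ E ∧
      CompletelyContractiveOn Set.univ g ∧ Set.EqOn g f S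

/-- `i` restricts to an injective star homomorphism `A → E`. -/
def IsStarEmbedding (A : Set (Op H)) (E : Set (Op K)) (i : Op H → Op K) : Prop :=
  LinearOn A i ∧ (∀ x ∈ A, ∀ y ∈ A, i (x * y) = i x * i y) ∧ (∀ x ∈ A, i (star x) = star (i x)) ∧
    Set.InjOn i A ∧ Set.MapsTo i A E

/-- The C*-algebra `E ⊆ B(K)` together with the embedding `i : A → E` is an injective envelope of
the C*-algebra `A ⊆ B(H)`: `E` is injective and the only complete contraction `u : E → E` fixing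
`i(A)` pointwise is the identity. -/
def IsInjectiveEnvelope (A : Set (Op H)) (E : Set (Op K)) (i : Op H → Op K) : Prop :=
  IsCStarSubalgebra E ∧ IsStarEmbedding A E i ∧ IsInjectiveAlgebra.{v} E ∧
    ∀ u : Op K → Op K, LinearOn E u → Set.MapsTo u E E → CompletelyContractiveOn E u →
      (∀ a ∈ A, u (i a) = i a) → ∀ x ∈ E, u x = x

/-- The subset `J` of `B(H)` is a completely isometric copy of the injective envelope of `A`:
`J = j(I(A))` for a complete isometry `j : I(A) → B(H)` with `j(a) = a` for all `a ∈ A`. -/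
def IsCopyOfInjectiveEnvelope (A J : Set (Op H)) : Prop :=
  ∃ (K : Type) (_ : NormedAddCommGroup K) (_ : InnerProductSpace ℂ K) (_ : CompleteSpace K)
    (E : Set (Op K)) (i : Op H → Op K) (j : Op K → Op H),
    IsInjectiveEnvelope.{v} A E i ∧ LinearOn E j ∧ CompletelyIsometricOn E j ∧
    (∀ a ∈ A, j (i a) = a) ∧ J = j '' E

/-- `S` norms `B`: for every `k` and every `X ∈ M_k(B)`, `‖X‖` is the supremum of `‖R X C‖` over
the rows `R ∈ Ball(Row_k(S))` and the columns `C ∈ Ball(Col_k(S))`. -/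
def Norms (S B : Set (Op H)) : Prop :=
  ∀ (k : ℕ) (X : Matrix (Fin k) (Fin k) (Op H)), (∀ i j, X i j ∈ B) →
    IsLUB {t : ℝ | ∃ (R : Matrix (Fin 1) (Fin k) (Op H)) (C : Matrix (Fin k) (Fin 1) (Op H)),
      (∀ i j, R i j ∈ S) ∧ (∀ i j, C i j ∈ S) ∧ mnorm R ≤ 1 ∧ mnorm C ≤ 1 ∧
        t = mnorm (R * X * C)} (mnorm X)

end Defs

theorem mnorm_eq {H : Type*} [NormedAddCommGroup H] [InnerProductSpace ℂ H] {m n : ℕ}
    (X : Matrix (Fin m) (Fin n) (Op H)) : mnorm X = ‖op X‖ := by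
  rw [mnorm, ContinuousLinearMap.norm_def]
  congr 1
  ext c
  have h : ∀ ξ : PiLp 2 (fun _ : Fin n => H), ‖op X ξ‖ ≤ c * ‖ξ‖ ↔
      Real.sqrt (∑ i, ‖∑ j, X i j (ξ j)‖ ^ 2) ≤ c * Real.sqrt (∑ j, ‖ξ j‖ ^ 2) := by
    intro ξ
    rw [PiLp.norm_eq_of_L2, PiLp.norm_eq_of_L2]
    simp only [op_apply]
  constructor
  · rintro ⟨h0, h1⟩
    exact ⟨h0, fun ξ => (h ξ).2 (h1 _)⟩
  · rintro ⟨h0, h1⟩
    exact ⟨h0, fun ξ => (h (WithLp.toLp 2 ξ)).1 (h1 _)⟩

/-- the representation of `A0` on `ℓ²(ℕ) ⊕ ℂ²` -/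
def psi : A0 →⋆ₐ[ℂ] (Ltwo I →L[ℂ] Ltwo I) :=
  (Δ (ι := I)).comp (extHom.comp A0.subtype)

theorem psi_apply (a : A0) : psi a = Δ (extHom (a : Linf ℕ)) := rfl

theorem psi_norm (a : A0) : ‖psi a‖ = ‖a‖ := by
  rw [psi_apply, Δ_norm, ext_norm]
  rfl

/-- the algebra `A` -/
def A : Set (Op (Ltwo I)) := Set.range psi

/-- the algebra `E = ℓ^∞` of diagonal operators -/
def E : Set (Op (Ltwo ℕ)) := Set.range (Δ (ι := ℕ))

theorem isCStar_E : IsCStarSubalgebra E := by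
  have h : Isometry (Δ (ι := ℕ)) := AddMonoidHomClass.isometry_of_norm _ Δ_norm
  refine ⟨h.isClosedEmbedding.isClosed_range, (Δ (ι := ℕ)).range, ?_⟩
  rfl

theorem isClosed_A0 : IsClosed (A0 : Set (Linf ℕ)) :=
  isClosed_eq (chi_continuous 0) (chi_continuous 1)

theorem isCStar_A : IsCStarSubalgebra A := by
  have : CompleteSpace A0 := isClosed_A0.completeSpace_coe
  have h : Isometry psi := AddMonoidHomClass.isometry_of_norm _ psi_norm
  refine ⟨h.isClosedEmbedding.isClosed_range, psi.range, ?_⟩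
  rfl

theorem mem_E {T : Op (Ltwo ℕ)} (h : T ∈ E) : ∃ b : Linf ℕ, T = Δ b := by
  obtain ⟨b, hb⟩ := h
  exact ⟨b, hb.symm⟩

theorem mem_A {T : Op (Ltwo I)} (h : T ∈ A) :
    ∃ a : Linf ℕ, T = Δ (extHom a) ∧ ∀ b, Lm b a = Lm 0 a := by
  obtain ⟨a, ha⟩ := h
  refine ⟨a, ha.symm, fun b => ?_⟩
  have h2 := (mem_A0 (a : Linf ℕ)).1 a.2
  fin_cases b
  · rfl
  · exact h2.symm

/-- the diagonal entries of an operator -/
def cf (n : ℕ) : (Ltwo ℕ →L[ℂ] Ltwo ℕ) →ₗ[ℂ] ℂ where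
  toFun T := T (sg n 1) n
  map_add' _ _ := rfl
  map_smul' _ _ := rfl

theorem cf_Δ (n : ℕ) (b : Linf ℕ) : cf n (Δ b) = b n := by
  show Δ b (sg n 1) n = b n
  rw [Δ_apply, sg_self, mul_one]

theorem coord_norm {ι : Type*} [DecidableEq ι] (T : Ltwo ι →L[ℂ] Ltwo ι) (s : ι) :
    ‖T (sg s 1) s‖ ≤ ‖T‖ := by
  have h1 := T.le_opNorm (sg s 1)
  rw [norm_sg, norm_one, mul_one] at h1
  refine le_trans ?_ h1
  exact lp.norm_apply_le_norm (by norm_num) _ s

/-- symbol of an operator on `ℓ²(ℕ)` -/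
def sym (T : Op (Ltwo ℕ)) : Linf ℕ := ⟨fun n => T (sg n 1) n, memℓp_infty ⟨‖T‖, by
  rintro _ ⟨n, rfl⟩
  exact coord_norm T n⟩⟩

/-- symbol of an operator on `ℓ²(ℕ) ⊕ ℂ²`, restricted to `ℕ` -/
def rs (T : Op (Ltwo I)) : Linf ℕ := ⟨fun n => T (sg (Sum.inl n : I) 1) (Sum.inl n),
  memℓp_infty ⟨‖T‖, by
    rintro _ ⟨n, rfl⟩
    exact coord_norm T (Sum.inl n : I)⟩⟩

theorem sym_Δ (b : Linf ℕ) : sym (Δ b) = b := by
  ext n
  show Δ b (sg n 1) n = b n
  rw [Δ_apply, sg_self, mul_one]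

theorem rs_Δ (b : Linf ℕ) : rs (Δ (extHom b)) = b := by
  ext n
  show Δ (extHom b) (sg (Sum.inl n : I) 1) (Sum.inl n) = b n
  rw [Δ_apply, sg_self, mul_one, extHom_inl]

/-- the embedding `A → E` -/
def emb (T : Op (Ltwo I)) : Op (Ltwo ℕ) := Δ (rs T)

theorem emb_Δ (b : Linf ℕ) : emb (Δ (extHom b)) = Δ b := by rw [emb, rs_Δ]

/-- the complete isometry `E → B(H)` -/
def jmap (T : Op (Ltwo ℕ)) : Op (Ltwo I) := Δ (extHom (sym T))

theorem jmap_Δ (b : Linf ℕ) : jmap (Δ b) = Δ (extHom b) := by rw [jmap, sym_Δ]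

theorem jmap_linear : LinearOn E jmap := by
  intro x hx y hy c
  obtain ⟨a, rfl⟩ := mem_E hx
  obtain ⟨b, rfl⟩ := mem_E hy
  rw [← map_smul, ← map_add, jmap_Δ, jmap_Δ, jmap_Δ, map_add, map_smul, map_add, map_smul]

theorem jmap_isometric : CompletelyIsometricOn E jmap := by
  intro n X hX
  choose b hb using fun i j => mem_E (hX i j)
  have h2 : ∀ i j, (X.map jmap) i j = Δ (extHom (b i j)) := by
    intro i j
    rw [Matrix.map_apply, hb, jmap_Δ]
  rw [mnorm_eq, mnorm_eq]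
  refine le_antisymm ?_ ?_
  · refine opD_le _ (fun i j => extHom (b i j)) h2 (norm_nonneg _) ?_
    refine Mbd_ext b fun k => ?_
    exact opD_ge _ b hb k
  · refine opD_le _ b hb (norm_nonneg _) fun k => ?_
    exact opD_ge _ (fun i j => extHom (b i j)) h2 (Sum.inl k)

/-- a completely contractive map has contractive coordinates -/
theorem coord_le {K : Type*} [NormedAddCommGroup K] [InnerProductSpace ℂ K]
    (S : Set (Op K)) (u : Op K → Op (Ltwo ℕ))
    (hu : CompletelyContractiveOn S u) (x : Op K) (hx : x ∈ S) (b : Linf ℕ) (hb : u x = Δ b)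
    (n : ℕ) : ‖b n‖ ≤ ‖x‖ := by
  set X : Matrix (Fin 1) (Fin 1) (Op K) := fun _ _ => x with hX
  have h1 := hu 1 X (fun _ _ => hx)
  rw [mnorm_eq, mnorm_eq] at h1
  have h2 := opD_ge (X.map u) (fun _ _ => b) (fun _ _ => hb) n (fun _ => 1)
  simp only [Finset.univ_unique, Finset.sum_singleton, mul_one, norm_one, one_pow] at h2
  have h3 := (sq_le_sq₀ (norm_nonneg _) (norm_nonneg _)).1 h2
  exact h3.trans (h1.trans (op_one_le x))

theorem linearOn_add {H K : Type*} [NormedAddCommGroup H] [InnerProductSpace ℂ H]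
    [NormedAddCommGroup K] [InnerProductSpace ℂ K] {S : Set (Op K)} {f : Op K → Op H}
    (hf : LinearOn S f) {x y : Op K} (hx : x ∈ S) (hy : y ∈ S) : f (x + y) = f x + f y := by
  have := hf x hx y hy 1
  rwa [one_smul, one_smul] at this

theorem linearOn_zero {H K : Type*} [NormedAddCommGroup H] [InnerProductSpace ℂ H]
    [NormedAddCommGroup K] [InnerProductSpace ℂ K] {S : Set (Op K)} {f : Op K → Op H}
    (hf : LinearOn S f) (h0 : (0 : Op K) ∈ S) : f 0 = 0 := by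
  have := linearOn_add hf h0 h0
  rw [add_zero] at this
  exact left_eq_add.1 this

theorem linearOn_smul {H K : Type*} [NormedAddCommGroup H] [InnerProductSpace ℂ H]
    [NormedAddCommGroup K] [InnerProductSpace ℂ K] {S : Set (Op K)} {f : Op K → Op H}
    (hf : LinearOn S f) (h0 : (0 : Op K) ∈ S) {x : Op K} (hx : x ∈ S) (c : ℂ) :
    f (c • x) = c • f x := by
  have := hf x hx 0 h0 c
  rwa [add_zero, linearOn_zero hf h0, add_zero] at this

theorem E_injective : IsInjectiveAlgebra.{v} E := by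
  rintro L _ _ _ S ⟨V, rfl⟩ f hfl hfE hf
  -- coordinate functionals
  have hφ : ∀ n : ℕ, ∃ g : (L →L[ℂ] L) →L[ℂ] ℂ, ‖g‖ ≤ 1 ∧ ∀ x ∈ V, g x = cf n (f x) := by
    intro n
    let φ : V →ₗ[ℂ] ℂ :=
      { toFun := fun x => cf n (f x)
        map_add' := fun x y => by
          rw [Submodule.coe_add, linearOn_add hfl x.2 y.2, map_add]
        map_smul' := fun c x => by
          rw [Submodule.coe_smul, linearOn_smul hfl V.zero_mem x.2, map_smul]
          rfl }
    have hb : ∀ x : V, ‖φ x‖ ≤ 1 * ‖x‖ := by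
      intro x
      obtain ⟨b, hb⟩ := mem_E (hfE x.2)
      rw [one_mul]
      show ‖cf n (f x)‖ ≤ _
      have := coord_le _ f hf x x.2 b hb n
      rw [hb, cf_Δ]
      exact this
    obtain ⟨g, hg1, hg2⟩ := exists_extension_norm_eq V (LinearMap.mkContinuous φ 1 hb)
    refine ⟨g, ?_, fun x hx => hg1 ⟨x, hx⟩⟩
    rw [hg2]
    exact LinearMap.mkContinuous_norm_le _ zero_le_one _
  choose g hg1 hg2 using hφ
  have hbd : ∀ (x : L →L[ℂ] L) (n : ℕ), ‖g n x‖ ≤ ‖x‖ := by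
    intro x n
    exact ((g n).le_opNorm x).trans (by nlinarith [hg1 n, norm_nonneg x])
  let β : (L →L[ℂ] L) → Linf ℕ := fun x => ⟨fun n => g n x, memℓp_infty ⟨‖x‖, by
    rintro _ ⟨n, rfl⟩
    exact hbd x n⟩⟩
  have hβ : ∀ x n, β x n = g n x := fun x n => rfl
  refine ⟨fun x => Δ (β x), ?_, ?_, ?_, ?_⟩
  · intro x _ y _ c
    show Δ (β (c • x + y)) = c • Δ (β x) + Δ (β y)
    rw [← map_smul, ← map_add]
    congr 1
    ext n
    rw [hβ, map_add, map_smul]
    rfl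
  · intro x _
    exact ⟨β x, rfl⟩
  · intro n X _
    rw [mnorm_eq, mnorm_eq]
    refine opD_le _ (fun i j => β (X i j)) (fun i j => rfl) (norm_nonneg _) fun k => ?_
    exact functional_Mbd (g k) (hg1 k) X
  · intro x hx
    obtain ⟨b, hb⟩ := mem_E (hfE hx)
    show Δ (β x) = f x
    rw [hb]
    congr 1
    ext n
    rw [hβ, hg2 n x hx, hb, cf_Δ]

/-- indicator of a point in `ℓ^∞` -/
def pt (n : ℕ) (z : ℂ) : Linf ℕ := lp.single ∞ n z

theorem pt_self (n : ℕ) (z : ℂ) : pt n z n = z :=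
  lp.single_apply_self (E := fun _ : ℕ => ℂ) ∞ n z

theorem pt_ne {n m : ℕ} (z : ℂ) (h : m ≠ n) : pt n z m = 0 :=
  lp.single_apply_ne (E := fun _ : ℕ => ℂ) ∞ n z h

theorem Lm_pt (b : Fin 2) (n : ℕ) (z : ℂ) : Lm b (pt n z) = 0 := by
  refine Lm_eq ?_
  refine Tendsto.congr' ?_ tendsto_const_nhds
  have hev2 : ∀ᶠ m in (hyperfilter ℕ : Filter ℕ), n < m := by
    refine hyperfilter_le_cofinite ?_
    rw [mem_cofinite]
    refine (Set.finite_Iic n).subset ?_
    intro m hm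
    simpa using hm
  filter_upwards [hev2] with m hm
  rw [pt_ne]
  omega

theorem pt_mem (n : ℕ) (z : ℂ) : pt n z ∈ A0 := by
  rw [mem_A0, Lm_pt, Lm_pt]

theorem Δ_mem_E (a : Linf ℕ) : Δ a ∈ E := ⟨a, rfl⟩

theorem zero_mem_E : (0 : Op (Ltwo ℕ)) ∈ E := ⟨0, map_zero _⟩

theorem rigid (u : Op (Ltwo ℕ) → Op (Ltwo ℕ)) (hl : LinearOn E u) (huE : Set.MapsTo u E E)
    (hu : CompletelyContractiveOn E u) (hA : ∀ a ∈ A, u (emb a) = emb a) :
    ∀ x ∈ E, u x = x := by
  -- symbols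
  choose s hs using fun a : Linf ℕ => mem_E (huE (Δ_mem_E a))
  have hadd : ∀ x y, s (x + y) = s x + s y := by
    intro x y
    refine Δ_injective ?_
    show Δ (s (x + y)) = Δ (s x + s y)
    rw [← hs, map_add, map_add, linearOn_add hl (Δ_mem_E x) (Δ_mem_E y), hs, hs]
  have hsm : ∀ (c : ℂ) x, s (c • x) = c • s x := by
    intro c x
    refine Δ_injective ?_
    show Δ (s (c • x)) = Δ (c • s x)
    rw [← hs, map_smul, map_smul, linearOn_smul hl zero_mem_E (Δ_mem_E x), hs]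
  have hpt : ∀ n, s (pt n 1) = pt n 1 := by
    intro n
    have h1 := hA (Δ (extHom (pt n 1))) ⟨⟨pt n 1, pt_mem n 1⟩, rfl⟩
    rw [emb_Δ] at h1
    refine Δ_injective ?_
    show Δ (s (pt n 1)) = Δ (pt n 1)
    rw [← hs, h1]
  have hbd : ∀ (a : Linf ℕ) n, ‖s a n‖ ≤ ‖a‖ := by
    intro a n
    exact (coord_le _ u hu (Δ a) (Δ_mem_E a) _ (hs _) n).trans (Δ_norm_le a)
  -- an element vanishing at `n` is mapped to one vanishing at `n`
  have hvan : ∀ (a : Linf ℕ) n, a n = 0 → ‖a‖ ≤ 1 → s a n = 0 := by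
    intro a n ha ha1
    set z := s a n with hz
    by_contra hne
    have hz0 : 0 < ‖z‖ := norm_pos_iff.2 hne
    -- choose a unimodular constant
    set c : ℂ := (starRingEnd ℂ z) / (‖z‖ : ℂ) with hc
    have hc1 : ‖c‖ = 1 := by
      rw [hc, norm_div, RCLike.norm_conj, Complex.norm_real, norm_norm]
      exact div_self hz0.ne'
    have hcz : c * z = (‖z‖ : ℂ) := by
      rw [hc, div_mul_eq_mul_div, mul_comm, Complex.mul_conj', sq]
      have : (‖z‖ : ℂ) ≠ 0 := by exact_mod_cast hz0.ne'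
      field_simp
    have h1 := hbd (pt n 1 + c • a) n
    have h2 : s (pt n 1 + c • a) n = 1 + c * z := by
      rw [hadd, hsm, hpt, lp.coeFn_add, Pi.add_apply, pt_self,
        lp.coeFn_smul, Pi.smul_apply, smul_eq_mul]
    have h3 : ‖pt n 1 + c • a‖ ≤ 1 := by
      refine lp.norm_le_of_forall_le zero_le_one fun m => ?_
      rw [lp.coeFn_add, Pi.add_apply, lp.coeFn_smul, Pi.smul_apply, smul_eq_mul]
      by_cases hm : m = n
      · subst hm
        rw [pt_self, ha]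
        simp
      · rw [pt_ne _ hm, zero_add, norm_mul, hc1, one_mul]
        exact (norm_le_inf a m).trans ha1
    rw [h2, hcz] at h1
    have h4 : ‖(1 : ℂ) + (‖z‖ : ℂ)‖ = 1 + ‖z‖ := by
      rw [← Complex.ofReal_one, ← Complex.ofReal_add, Complex.norm_real,
        Real.norm_of_nonneg (by positivity)]
    rw [h4] at h1
    linarith
  have hvan' : ∀ (a : Linf ℕ) n, a n = 0 → s a n = 0 := by
    intro a n ha
    by_cases h0 : ‖a‖ ≤ 1
    · exact hvan a n ha h0
    · push Not at h0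
      have hne : (‖a‖ : ℂ) ≠ 0 := by
        have : ‖a‖ ≠ 0 := by linarith
        exact_mod_cast this
      have h1 := hvan ((‖a‖ : ℂ)⁻¹ • a) n (by
        rw [lp.coeFn_smul, Pi.smul_apply, ha, smul_zero]) (by
        rw [norm_smul, norm_inv, Complex.norm_real, norm_norm]
        exact le_of_eq (inv_mul_cancel₀ (by linarith)))
      rw [hsm, lp.coeFn_smul, Pi.smul_apply, smul_eq_mul] at h1
      rcases mul_eq_zero.1 h1 with h | h
      · exact absurd h (inv_ne_zero hne)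
      · exact h
  have hfin : ∀ a : Linf ℕ, s a = a := by
    intro a
    ext n
    have h1 : a = (a n) • pt n 1 + (a - (a n) • pt n 1) := by abel
    have h2 : (a - (a n) • pt n 1) n = 0 := by
      rw [lp.coeFn_sub, Pi.sub_apply, lp.coeFn_smul, Pi.smul_apply, pt_self, smul_eq_mul]
      ring
    have h3 := hvan' _ n h2
    conv_lhs => rw [h1]
    rw [hadd, hsm, hpt, lp.coeFn_add, Pi.add_apply, h3, lp.coeFn_smul,
      Pi.smul_apply, pt_self, smul_eq_mul]
    ring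
  rintro x ⟨a, rfl⟩
  rw [hs, hfin]

theorem emb_star : IsStarEmbedding A E emb := by
  refine ⟨?_, ?_, ?_, ?_, ?_⟩
  · intro x hx y hy c
    obtain ⟨a, rfl, -⟩ := mem_A hx
    obtain ⟨b, rfl, -⟩ := mem_A hy
    rw [← map_smul, ← map_smul, ← map_add, ← map_add, emb_Δ, emb_Δ, emb_Δ, map_add, map_smul]
  · intro x hx y hy
    obtain ⟨a, rfl, -⟩ := mem_A hx
    obtain ⟨b, rfl, -⟩ := mem_A hy
    rw [← map_mul, ← map_mul, emb_Δ, emb_Δ, emb_Δ, map_mul]
  · intro x hx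
    obtain ⟨a, rfl, -⟩ := mem_A hx
    rw [← map_star, ← map_star, emb_Δ, emb_Δ, map_star]
  · intro x hx y hy h
    obtain ⟨a, rfl, -⟩ := mem_A hx
    obtain ⟨b, rfl, -⟩ := mem_A hy
    rw [emb_Δ, emb_Δ] at h
    rw [Δ_injective h]
  · intro x _
    exact ⟨rs x, rfl⟩

theorem isCopy : IsCopyOfInjectiveEnvelope.{v} A (jmap '' E) := by
  refine ⟨Ltwo ℕ, inferInstance, inferInstance, inferInstance, E, emb, jmap,
    ⟨isCStar_E, emb_star, E_injective, rigid⟩, jmap_linear, jmap_isometric, ?_, rfl⟩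
  intro x hx
  obtain ⟨a, rfl, -⟩ := mem_A hx
  rw [emb_Δ, jmap_Δ]

theorem norms_copy : Norms (jmap '' E) (Set.univ : Set (Op (Ltwo I))) := by
  intro k X _
  have hmem : ∀ a : Linf ℕ, Δ (extHom a) ∈ jmap '' E := by
    intro a
    exact ⟨Δ a, Δ_mem_E a, jmap_Δ a⟩
  rw [mnorm_eq]
  refine ⟨?_, ?_⟩
  · rintro t ⟨R, C, -, -, hR, hC, rfl⟩
    rw [mnorm_eq] at hR hC ⊢
    rw [op_mul, op_mul]
    calc ‖(op R ∘L op X) ∘L op C‖ ≤ ‖op R ∘L op X‖ * ‖op C‖ :=
          ContinuousLinearMap.opNorm_comp_le _ _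
      _ ≤ (‖op R‖ * ‖op X‖) * ‖op C‖ := by
          gcongr
          exact ContinuousLinearMap.opNorm_comp_le _ _
      _ ≤ (1 * ‖op X‖) * 1 := by
          gcongr
      _ = ‖op X‖ := by ring
  · intro c hc
    have h0 : 0 ≤ c := by
      have := hc ⟨rowM (fun _ => 0), colM (fun _ => 0), fun _ _ => hmem _, fun _ _ => hmem _,
        (mnorm_eq _).trans_le (row_le _ (fun s => by simp)),
        (mnorm_eq _).trans_le (col_le _ (fun s => by simp)), rfl⟩
      rw [mnorm_eq] at this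
      exact (norm_nonneg _).trans this
    refine norming X h0 fun γ δ hγ hδ => ?_
    have := hc ⟨rowM δ, colM γ, fun _ _ => hmem _, fun _ _ => hmem _,
      (mnorm_eq _).trans_le (row_le δ hδ), (mnorm_eq _).trans_le (col_le γ hγ), rfl⟩
    rwa [mnorm_eq] at this

/-- vectors of the two-dimensional block -/
def blk (ρ : Fin 2 → ℂ) : Ltwo I := ∑ i, sg (Sum.inr i) (ρ i)

theorem norm_blk (ρ : Fin 2 → ℂ) : ‖blk ρ‖ ^ 2 = ∑ i, ‖ρ i‖ ^ 2 := by
  have h := lp.norm_sum_single (E := fun _ : I => ℂ) (p := 2) (by norm_num)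
    (Sum.elim (fun _ => 0) ρ) (Finset.univ.map ⟨(Sum.inr : Fin 2 → I), Sum.inr_injective⟩)
  simp only [Finset.sum_map, Function.Embedding.coeFn_mk, Sum.elim_inr, ENNReal.toReal_ofNat,
    Real.rpow_two] at h
  exact h

theorem sum_blk_le (f : Ltwo I) : ∑ j : Fin 2, ‖f (Sum.inr j)‖ ^ 2 ≤ ‖f‖ ^ 2 := by
  have h := sum_le_hasSum (Finset.univ.map ⟨(Sum.inr : Fin 2 → I), Sum.inr_injective⟩)
    (fun s _ => by positivity) (hasSum_sq f)
  simpa only [Finset.sum_map, Function.Embedding.coeFn_mk] using h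

/-- matrix units of the two-dimensional block -/
def EE (i j : Fin 2) : Ltwo I →L[ℂ] Ltwo I :=
  (innerSL ℂ (sg (Sum.inr j : I) 1)).smulRight (sg (Sum.inr i : I) 1)

theorem EE_apply (i j : Fin 2) (f : Ltwo I) :
    EE i j f = f (Sum.inr j) • sg (Sum.inr i : I) 1 := by
  have h : ⟪sg (Sum.inr j : I) 1, f⟫_ℂ = f (Sum.inr j) := by
    have := lp.inner_single_left (𝕜 := ℂ) (G := fun _ : I => ℂ) (Sum.inr j) 1 f
    rw [sg, this]
    simp
  show ⟪sg (Sum.inr j : I) 1, f⟫_ℂ • sg (Sum.inr i : I) 1 = _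
  rw [h]

/-- the test matrix -/
def XX : Matrix (Fin 2) (Fin 2) (Ltwo I →L[ℂ] Ltwo I) := fun i j => EE i j

theorem two_le : 2 ≤ ‖op XX‖ := by
  set ξ : PiLp 2 (fun _ : Fin 2 => Ltwo I) :=
    WithLp.toLp 2 (fun j => sg (Sum.inr j : I) 1) with hξ
  have hξj : ∀ j, ξ j = sg (Sum.inr j : I) 1 := fun j => rfl
  have h1 := (op XX).le_opNorm ξ
  have h2 : ‖op XX ξ‖ ^ 2 ≤ ‖op XX‖ ^ 2 * ‖ξ‖ ^ 2 := by
    rw [← mul_pow]
    exact pow_le_pow_left₀ (norm_nonneg _) h1 2
  rw [norm_sq_pi, norm_sq_pi] at h2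
  have h3 : ∀ i, op XX ξ i = (2 : ℂ) • sg (Sum.inr i : I) 1 := by
    intro i
    rw [op_apply, Fin.sum_univ_two]
    show EE i 0 (ξ 0) + EE i 1 (ξ 1) = _
    rw [EE_apply, EE_apply, hξj, hξj, sg_self, sg_self, ← add_smul]
    norm_num
  simp only [h3, hξj, norm_smul, norm_sg, Fin.sum_univ_two] at h2
  norm_num at h2
  nlinarith [norm_nonneg (op XX)]

theorem Δ_sg (a : Linf ℕ) (b : Fin 2) (z : ℂ) :
    Δ (extHom a) (sg (Sum.inr b) z) = (Lm b a) • sg (Sum.inr b) z := by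
  ext t
  rw [Δ_apply, lp.coeFn_smul, Pi.smul_apply, smul_eq_mul]
  by_cases ht : t = Sum.inr b
  · subst ht
    rw [sg_self, extHom_inr]
  · rw [sg_ne _ ht, mul_zero, mul_zero]

theorem not_norms_A : ¬ Norms A (Set.univ : Set (Op (Ltwo I))) := by
  intro hN
  have h := hN 2 XX (fun _ _ => Set.mem_univ _)
  rw [mnorm_eq] at h
  have h1 : ‖op XX‖ ≤ 1 := by
    refine h.2 ?_
    rintro t ⟨R, C, hRA, hCA, hR, hC, rfl⟩
    rw [mnorm_eq] at hR hC ⊢
    choose r hr hr2 using fun i => mem_A (hRA 0 i)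
    choose c hc hc2 using fun j => mem_A (hCA j 0)
    -- the scalars
    have hγ : ∑ j, ‖Lm 0 (c j)‖ ^ 2 ≤ 1 := by
      have := opD_ge C (fun j _ => extHom (c j)) (fun j k => by
        rw [Subsingleton.elim k 0]
        exact hc j) (Sum.inr 0) (fun _ => 1)
      simp only [Finset.univ_unique, Finset.sum_singleton, mul_one, norm_one, one_pow,
        extHom_inr] at this
      refine this.trans ?_
      nlinarith [norm_nonneg (op C)]
    have hρ : ∑ j, ‖Lm 0 (r j)‖ ^ 2 ≤ 1 := by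
      have := opD_ge R (fun _ j => extHom (r j)) (fun k j => by
        rw [Subsingleton.elim k 0]
        exact hr j) (Sum.inr 0) (fun j => starRingEnd ℂ (Lm 0 (r j)))
      simp only [Finset.univ_unique, Finset.sum_singleton, extHom_inr, Complex.mul_conj',
        RCLike.norm_conj] at this
      have h0 : 0 ≤ ∑ j, ‖Lm 0 (r j)‖ ^ 2 := Finset.sum_nonneg fun _ _ => by positivity
      have h2 : ‖∑ j, ((‖Lm 0 (r j)‖ : ℂ)) ^ 2‖ = ∑ j, ‖Lm 0 (r j)‖ ^ 2 := by
        have : (∑ j, ((‖Lm 0 (r j)‖ : ℂ)) ^ 2) = ((∑ j, ‖Lm 0 (r j)‖ ^ 2 : ℝ) : ℂ) := by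
          push_cast
          rfl
        rw [this, Complex.norm_real, Real.norm_of_nonneg h0]
      rw [h2] at this
      have h3 : ‖op R‖ ^ 2 ≤ 1 := by nlinarith [norm_nonneg (op R)]
      by_contra hcon
      push Not at hcon
      nlinarith
    refine op_norm_le _ zero_le_one fun ξ => ?_
    simp only [Finset.univ_unique, Finset.sum_singleton, one_pow, one_mul]
    set f := ξ default with hf
    have hval : (R * XX * C) default default f =
        (∑ j, Lm 0 (c j) * f (Sum.inr j)) • blk (fun i => Lm 0 (r i)) := by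
      have e1 : (R * XX * C) default default f =
          ∑ j, ∑ i, R 0 i (XX i j (C j 0 f)) := by
        simp only [Matrix.mul_apply, ContinuousLinearMap.sum_apply,
          ContinuousLinearMap.mul_apply]
        rfl
      rw [e1, Finset.sum_smul]
      refine Finset.sum_congr rfl fun j _ => ?_
      rw [blk, Finset.smul_sum]
      refine Finset.sum_congr rfl fun i _ => ?_
      rw [hr, hc]
      show Δ (extHom (r i)) (EE i j (Δ (extHom (c j)) f)) = _
      rw [EE_apply, map_smul, Δ_sg, Δ_apply, extHom_inr, hc2, hr2]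
      congr 1
      ext t
      rw [lp.coeFn_smul, Pi.smul_apply, smul_eq_mul]
      by_cases ht : t = Sum.inr i
      · subst ht
        rw [sg_self, sg_self, mul_one]
      · rw [sg_ne _ ht, sg_ne _ ht, mul_zero]
    rw [hval, norm_smul, mul_pow, norm_blk]
    have h5 : ‖∑ j, Lm 0 (c j) * f (Sum.inr j)‖ ^ 2 ≤ ‖f‖ ^ 2 := by
      have g1 : ‖∑ j, Lm 0 (c j) * f (Sum.inr j)‖ ≤ ∑ j, ‖Lm 0 (c j)‖ * ‖f (Sum.inr j)‖ :=
        (norm_sum_le _ _).trans (le_of_eq (Finset.sum_congr rfl fun j _ => norm_mul _ _))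
      have g2 : (∑ j, ‖Lm 0 (c j)‖ * ‖f (Sum.inr j)‖) ^ 2 ≤
          (∑ j, ‖Lm 0 (c j)‖ ^ 2) * ∑ j, ‖f (Sum.inr j)‖ ^ 2 :=
        Finset.sum_mul_sq_le_sq_mul_sq _ _ _
      have g3 : 0 ≤ ∑ j, ‖f (Sum.inr j)‖ ^ 2 := Finset.sum_nonneg fun j _ => by positivity
      calc ‖∑ j, Lm 0 (c j) * f (Sum.inr j)‖ ^ 2
          ≤ (∑ j, ‖Lm 0 (c j)‖ * ‖f (Sum.inr j)‖) ^ 2 := pow_le_pow_left₀ (norm_nonneg _) g1 2
        _ ≤ _ := g2
        _ ≤ 1 * ∑ j, ‖f (Sum.inr j)‖ ^ 2 := by gcongr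
        _ = ∑ j, ‖f (Sum.inr j)‖ ^ 2 := one_mul _
        _ ≤ _ := sum_blk_le f
    have h6 : 0 ≤ ∑ j, ‖Lm 0 (r j)‖ ^ 2 := Finset.sum_nonneg fun _ _ => by positivity
    calc _ ≤ ‖f‖ ^ 2 * 1 := mul_le_mul h5 hρ h6 (by positivity)
      _ = _ := mul_one _
  linarith [two_le]

/-- **Negative answer to Q1.** There are C*-algebras `A ⊆ B ⊆ B(H)` and a completely isometric
copy `J` of the injective envelope `I(A)` in `B(H)` that norms `B`, while `A` does not norm `B`. -/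
theorem result :
    ∃ (H : Type) (_ : NormedAddCommGroup H) (_ : InnerProductSpace ℂ H) (_ : CompleteSpace H)
      (A B J : Set (Op H)), IsCStarSubalgebra A ∧ IsCStarSubalgebra B ∧ A ⊆ B ∧
      IsCopyOfInjectiveEnvelope.{v} A J ∧ Norms J B ∧ ¬ Norms A B :=
  ⟨Ltwo I, inferInstance, inferInstance, inferInstance, A, Set.univ, jmap '' E, isCStar_A,
    ⟨isClosed_univ, ⊤, rfl⟩, Set.subset_univ _, isCopy, norms_copy, not_norms_A⟩

end Pool.Agent.Results.MP_dad682_an.NormingFails
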